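import Pool.Agent.Helper18.RD.Stmts4
import Pool.Agent.Helper54.RD.ENC

set_option autoImplicit false

namespace Pool.Agent.Helper12.RD

open Finset Pool.Agent.Helper18.RD Pool.Agent.Helper54.RD

open Classical in
/-- Cauchy-Schwarz for a family of sets with small intersections -/
theorem cs_inter (S X : Finset ℕ) (A : ℕ → Finset ℕ) (K : ℝ) (hX : X ⊆ S) (hK : 0 ≤ K)
    (hA : ∀ x ∈ X, A x ⊆ S)
    (hI : ∀ x ∈ X, ∀ x' ∈ X, x ≠ x' → (((A x) ∩ (A x')).card : ℝ) ≤ K) :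
    (∑ x ∈ X, ((A x).card : ℝ)) ^ 2 ≤ (S.card : ℝ) ^ 3 * (1 + K) := by
  obtain ⟨g, hg⟩ : ∃ g : ℕ → ℕ → ℝ, ∀ x n, g x n = if n ∈ A x then 1 else 0 :=
    ⟨fun x n => if n ∈ A x then 1 else 0, fun _ _ => rfl⟩
  have hsum : ∀ T : Finset ℕ, T ⊆ S → ∑ n ∈ S, (if n ∈ T then (1 : ℝ) else 0) = T.card := by
    intro T hT
    rw [sum_ite_mem, inter_eq_right.2 hT, sum_const, nsmul_eq_mul, mul_one]
  have h1 : ∀ x ∈ X, ((A x).card : ℝ) = ∑ n ∈ S, g x n := by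
    intro x hx
    rw [← hsum (A x) (hA x hx)]
    exact sum_congr rfl fun n _ => (hg x n).symm
  rw [sum_congr rfl h1, sum_comm]
  refine sq_sum_le_card_mul_sum_sq.trans ?_
  have h2 : ∑ n ∈ S, (∑ x ∈ X, g x n) ^ 2 = ∑ x ∈ X, ∑ x' ∈ X, ((A x ∩ A x').card : ℝ) := by
    have h3 : ∀ n ∈ S, (∑ x ∈ X, g x n) ^ 2 = ∑ x ∈ X, ∑ x' ∈ X, g x n * g x' n := by
      intro n _
      rw [sq, sum_mul_sum]
    rw [sum_congr rfl h3, sum_comm]
    refine sum_congr rfl fun x hx => ?_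
    rw [sum_comm]
    refine sum_congr rfl fun x' hx' => ?_
    rw [← hsum (A x ∩ A x') (inter_subset_left.trans (hA x hx))]
    refine sum_congr rfl fun n _ => ?_
    rw [hg, hg]
    by_cases ha : n ∈ A x <;> by_cases hb : n ∈ A x' <;> simp [ha, hb]
  rw [h2]
  have h5 : ∀ x ∈ X, ∑ x' ∈ X, ((A x ∩ A x').card : ℝ) ≤ (S.card : ℝ) + S.card * K := by
    intro x hx
    rw [← add_sum_erase X _ hx]
    apply add_le_add
    · exact_mod_cast card_le_card (inter_subset_left.trans (hA x hx))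
    · calc ∑ x' ∈ X.erase x, ((A x ∩ A x').card : ℝ) ≤ ∑ x' ∈ X.erase x, K :=
            sum_le_sum fun x' hx' => hI x hx x' (mem_of_mem_erase hx') (ne_of_mem_erase hx').symm
        _ = ((X.erase x).card : ℝ) * K := by rw [sum_const, nsmul_eq_mul]
        _ ≤ (S.card : ℝ) * K := mul_le_mul_of_nonneg_right
            (by exact_mod_cast card_le_card ((erase_subset _ _).trans hX)) hK
  have h6 : ∑ x ∈ X, ∑ x' ∈ X, ((A x ∩ A x').card : ℝ) ≤
      (S.card : ℝ) * ((S.card : ℝ) + S.card * K) := by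
    refine (sum_le_sum h5).trans ?_
    rw [sum_const, nsmul_eq_mul]
    apply mul_le_mul_of_nonneg_right _ (by positivity)
    exact_mod_cast card_le_card hX
  calc (S.card : ℝ) * ∑ x ∈ X, ∑ x' ∈ X, ((A x ∩ A x').card : ℝ) ≤
      (S.card : ℝ) * ((S.card : ℝ) * ((S.card : ℝ) + S.card * K)) :=
        mul_le_mul_of_nonneg_left h6 (by positivity)
    _ = _ := by ring

/-- the `n` of the triples over `(x, y)` on one side of `x` -/
def Pp (S : Finset ℕ) (z : ℕ) (B σ : ℤ) (x y : ℕ) : Finset ℕ :=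
  S.filter (fun n => (n, x, y) ∈ E3 S z B ∧ 0 < σ * ((n : ℤ) - x))

open Classical in
/-- those with squarefree part `e` -/
noncomputable def Nc (S : Finset ℕ) (z : ℕ) (B σ : ℤ) (x y e : ℕ) : Finset ℕ :=
  S.filter (fun n => (n, x, y) ∈ E3 S z B ∧ Squarefree e ∧
    ∃ α : ℕ, 1 ≤ α ∧ σ * ((n : ℤ) - x) = e * (α : ℤ) ^ 2)

/-- pigeonhole on the squarefree part -/
theorem pigeon (S : Finset ℕ) (z : ℕ) (B σ : ℤ) (x y : ℕ) (hσ : σ = 1 ∨ σ = -1) (hB : B ≠ 0)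
    (hxy : x ≠ y) (D : ℝ) (hD0 : 0 ≤ D) (hD : ((Mr z B (x, y)).natAbs.divisors.card : ℝ) ≤ D) :
    ∃ e : ℕ, ((Pp S z B σ x y).card : ℝ) ≤ D * ((Nc S z B σ x y e).card : ℝ) := by
  classical
  rcases (Pp S z B σ x y).eq_empty_or_nonempty with h0 | ⟨n0, hn0⟩
  · refine ⟨0, ?_⟩
    rw [h0, card_empty, Nat.cast_zero]
    positivity
  have cne : ∀ a b : ℕ, a ≠ b → ((a : ℤ) - b) ≠ 0 := by
    intro a b hab h0
    apply hab
    have : (a : ℤ) = b := by linarith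
    exact_mod_cast this
  have hmr : (Mr z B (x, y)).natAbs ≠ 0 := by
    unfold Pp at hn0
    rw [mem_filter] at hn0
    have h1 := hn0.2.1
    unfold E3 at h1
    rw [mem_filter] at h1
    simp only at h1
    obtain ⟨-, h2, h3, h4, h5, h6⟩ := h1
    rw [Int.natAbs_ne_zero]
    exact mul_ne_zero (mul_ne_zero (mul_ne_zero hB (cne _ _ (Ne.symm hxy))) (cne _ _ h4))
      (cne _ _ h5)
  have hne : ((Mr z B (x, y)).natAbs.divisors).Nonempty :=
    ⟨1, Nat.mem_divisors.2 ⟨one_dvd _, hmr⟩⟩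
  obtain ⟨e0, -, he0⟩ := exists_max_image ((Mr z B (x, y)).natAbs.divisors)
    (fun e => (Nc S z B σ x y e).card) hne
  refine ⟨e0, ?_⟩
  have hsub : Pp S z B σ x y ⊆
      ((Mr z B (x, y)).natAbs.divisors).biUnion (fun e => Nc S z B σ x y e) := by
    intro n hn
    unfold Pp at hn
    rw [mem_filter] at hn
    obtain ⟨hnS, hE, hpos⟩ := hn
    have h1 := hE
    unfold E3 at h1
    rw [mem_filter] at h1
    simp only at h1
    obtain ⟨-, h2, h3, h4, h5, h6⟩ := h1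
    obtain ⟨α, hα, hsf⟩ := sqp_spec ((n : ℤ) - x).natAbs
    have hne' : ((n : ℤ) - x).natAbs ≠ 0 := Int.natAbs_ne_zero.mpr (cne _ _ h2)
    have hα1 : 1 ≤ α := by
      rcases Nat.eq_zero_or_pos α with h0 | h0
      · exfalso; apply hne'; rw [← hα, h0]; simp
      · exact h0
    rw [mem_biUnion]
    refine ⟨sqp ((n : ℤ) - x).natAbs, ?_, ?_⟩
    · rw [Nat.mem_divisors]
      refine ⟨?_, hmr⟩
      exact key_dvd B ((z : ℤ) - x) ((z : ℤ) - y) ((n : ℤ) - x) ((n : ℤ) - y) ((y : ℤ) - x) hB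
        (cne _ _ h4) (cne _ _ h5) (cne _ _ h2) (cne _ _ h3) (by ring) h6 _ α hsf hα
    · unfold Nc
      rw [mem_filter]
      refine ⟨hnS, hE, hsf, α, hα1, ?_⟩
      have h7 : (((n : ℤ) - x).natAbs : ℤ) = σ * ((n : ℤ) - x) := by
        rcases hσ with rfl | rfl
        · rw [one_mul] at hpos ⊢
          exact Int.natAbs_of_nonneg hpos.le
        · have h8 : 0 < -((n : ℤ) - x) := by linarith
          rw [← Int.natAbs_neg, Int.natAbs_of_nonneg h8.le]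
          ring
      rw [← h7]
      have h9 : ((α ^ 2 * sqp ((n : ℤ) - x).natAbs : ℕ) : ℤ) = (((n : ℤ) - x).natAbs : ℤ) := by
        rw [hα]
      push_cast at h9
      push_cast
      rw [← h9]
      ring
  have h1 : (Pp S z B σ x y).card ≤
      (Mr z B (x, y)).natAbs.divisors.card * (Nc S z B σ x y e0).card := by
    refine (card_le_card hsub).trans (card_biUnion_le.trans ?_)
    refine (sum_le_sum he0).trans ?_
    rw [sum_const, smul_eq_mul]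
  calc ((Pp S z B σ x y).card : ℝ) ≤
      ((Mr z B (x, y)).natAbs.divisors.card : ℝ) * ((Nc S z B σ x y e0).card : ℝ) := by
        exact_mod_cast h1
    _ ≤ _ := mul_le_mul_of_nonneg_right hD (by positivity)

/-- small intersections by PEL -/
theorem inter_small (N : ℕ) (S : Finset ℕ) (z : ℕ) (B σ : ℤ) (x x' y e e' : ℕ) (K : ℝ)
    (hσ : σ = 1 ∨ σ = -1) (hS : S ⊆ range N) (hx : x < N) (hx' : x' < N)
    (hxx : x ≠ x') (hK : 0 ≤ K)
    (hP : ∀ (a b : ℕ) (c : ℤ), 1 ≤ a → a ≤ N → Squarefree a → 1 ≤ b → b ≤ N → Squarefree b →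
      c ≠ 0 → |c| ≤ N → (((Icc 1 N ×ˢ Icc 1 N).filter (fun t : ℕ × ℕ =>
        (a : ℤ) * (t.1 : ℤ) ^ 2 - b * (t.2 : ℤ) ^ 2 = c)).card : ℝ) ≤ K) :
    ((Nc S z B σ x y e ∩ Nc S z B σ x' y e').card : ℝ) ≤ K := by
  classical
  rcases (Nc S z B σ x y e ∩ Nc S z B σ x' y e').eq_empty_or_nonempty with h0 | ⟨n0, hn0⟩
  · rw [h0, card_empty, Nat.cast_zero]
    exact hK
  have hσ2 : σ * σ = 1 := by rcases hσ with rfl | rfl <;> norm_num
  have hbd : ∀ n < N, ∀ w < N, σ * ((n : ℤ) - w) ≤ N := by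
    intro n hn w hw
    rcases hσ with rfl | rfl <;> omega
  have hle : ∀ (f α : ℕ) (s : ℤ), Squarefree f → 1 ≤ α → s = f * (α : ℤ) ^ 2 → s ≤ N →
      f ≤ N ∧ α ≤ N := by
    intro f α s hf hα hs hsN
    have h1 : f * α ^ 2 ≤ N := by
      have : ((f * α ^ 2 : ℕ) : ℤ) ≤ (N : ℤ) := by
        push_cast
        rw [← hs]
        exact hsN
      exact_mod_cast this
    have hf1 : 1 ≤ f := Nat.one_le_iff_ne_zero.2 hf.ne_zero
    constructor
    · exact (Nat.le_mul_of_pos_right f (by positivity)).trans h1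
    · calc α = α * 1 := (mul_one _).symm
        _ ≤ α * α := Nat.mul_le_mul_left _ hα
        _ = 1 * α ^ 2 := by ring
        _ ≤ f * α ^ 2 := Nat.mul_le_mul_right _ hf1
        _ ≤ N := h1
  have hmem : ∀ n ∈ Nc S z B σ x y e ∩ Nc S z B σ x' y e', n < N ∧ Squarefree e ∧
      Squarefree e' ∧ ∃ α β : ℕ, 1 ≤ α ∧ 1 ≤ β ∧ σ * ((n : ℤ) - x) = e * (α : ℤ) ^ 2 ∧
        σ * ((n : ℤ) - x') = e' * (β : ℤ) ^ 2 := by
    intro n hn
    rw [mem_inter] at hn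
    unfold Nc at hn
    rw [mem_filter, mem_filter] at hn
    obtain ⟨⟨h1, -, h2, α, h3, h4⟩, ⟨-, -, h5, β, h6, h7⟩⟩ := hn
    exact ⟨mem_range.1 (hS h1), h2, h5, α, β, h3, h6, h4, h7⟩
  obtain ⟨hn0N, hsf, hsf', α0, β0, hα0, hβ0, hq, hq'⟩ := hmem n0 hn0
  have hc0 : σ * ((x' : ℤ) - x) ≠ 0 := by
    intro h
    have h1 : σ * (σ * ((x' : ℤ) - x)) = 0 := by rw [h, mul_zero]
    rw [← mul_assoc, hσ2, one_mul] at h1
    apply hxx
    have : (x' : ℤ) = x := by linarith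
    exact_mod_cast this.symm
  have hcN : |σ * ((x' : ℤ) - x)| ≤ N := by
    rw [abs_le]
    rcases hσ with rfl | rfl <;> constructor <;> omega
  have hP1 := hP e e' (σ * ((x' : ℤ) - x)) (Nat.one_le_iff_ne_zero.2 hsf.ne_zero)
    (hle e α0 _ hsf hα0 hq (hbd n0 hn0N x hx)).1 hsf (Nat.one_le_iff_ne_zero.2 hsf'.ne_zero)
    (hle e' β0 _ hsf' hβ0 hq' (hbd n0 hn0N x' hx')).1 hsf' hc0 hcN
  refine le_trans ?_ hP1
  have key : (Nc S z B σ x y e ∩ Nc S z B σ x' y e').card ≤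
      ((Icc 1 N ×ˢ Icc 1 N).filter (fun t : ℕ × ℕ =>
        (e : ℤ) * (t.1 : ℤ) ^ 2 - e' * (t.2 : ℤ) ^ 2 = σ * ((x' : ℤ) - x))).card := by
    choose! α β hα hβ h1 h2 using fun n hn => (hmem n hn).2.2.2
    apply card_le_card_of_injOn (fun n => (α n, β n))
    · intro n hn
      have hn' := mem_coe.1 hn
      apply mem_coe.2
      rw [mem_filter, mem_product, mem_Icc, mem_Icc]
      have hnN := (hmem n hn').1
      refine ⟨⟨⟨hα n hn', (hle e _ _ hsf (hα n hn') (h1 n hn') (hbd n hnN x hx)).2⟩,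
        ⟨hβ n hn', (hle e' _ _ hsf' (hβ n hn') (h2 n hn') (hbd n hnN x' hx')).2⟩⟩, ?_⟩
      simp only
      rw [← h1 n hn', ← h2 n hn']
      ring
    · intro n hn n' hn' h
      have hn1 := mem_coe.1 hn
      have hn2 := mem_coe.1 hn'
      simp only [Prod.mk.injEq] at h
      have h3 := h1 n hn1
      have h4 := h1 n' hn2
      rw [h.1, ← h4] at h3
      have h5 : σ * (σ * ((n : ℤ) - x)) = σ * (σ * ((n' : ℤ) - x)) := by rw [h3]
      rw [← mul_assoc, ← mul_assoc, hσ2, one_mul, one_mul] at h5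
      have h6 : (n : ℤ) = n' := by linarith
      exact_mod_cast h6
  exact_mod_cast key

/-- bound over one `y` and one sign -/
theorem one_y (N : ℕ) (S : Finset ℕ) (z : ℕ) (B σ : ℤ) (y : ℕ) (K D : ℝ)
    (hσ : σ = 1 ∨ σ = -1) (hS : S ⊆ range N) (hB : B ≠ 0) (hK : 0 ≤ K) (hD0 : 0 ≤ D)
    (hy : y ∈ S)
    (hD : ∀ r ∈ S ×ˢ S, ((Mr z B r).natAbs.divisors.card : ℝ) ≤ D)
    (hP : ∀ (a b : ℕ) (c : ℤ), 1 ≤ a → a ≤ N → Squarefree a → 1 ≤ b → b ≤ N → Squarefree b →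
      c ≠ 0 → |c| ≤ N → (((Icc 1 N ×ˢ Icc 1 N).filter (fun t : ℕ × ℕ =>
        (a : ℤ) * (t.1 : ℤ) ^ 2 - b * (t.2 : ℤ) ^ 2 = c)).card : ℝ) ≤ K) :
    ∑ x ∈ S.erase y, ((Pp S z B σ x y).card : ℝ) ≤
      D * Real.sqrt ((S.card : ℝ) ^ 3 * (1 + K)) := by
  classical
  have h1 : ∀ x, ∃ e : ℕ, x ∈ S.erase y →
      ((Pp S z B σ x y).card : ℝ) ≤ D * ((Nc S z B σ x y e).card : ℝ) := by
    intro x
    by_cases hx : x ∈ S.erase y
    · obtain ⟨e, he⟩ := pigeon S z B σ x y hσ hB (ne_of_mem_erase hx) D hD0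
        (hD (x, y) (mem_product.2 ⟨mem_of_mem_erase hx, hy⟩))
      exact ⟨e, fun _ => he⟩
    · exact ⟨0, fun h => absurd h hx⟩
  choose e he using h1
  have h2 := cs_inter S (S.erase y) (fun x => Nc S z B σ x y (e x)) K (erase_subset _ _) hK
    (fun x _ => filter_subset _ _) (by
      intro x hx x' hx' hxx
      exact inter_small N S z B σ x x' y (e x) (e x') K hσ hS
        (mem_range.1 (hS (mem_of_mem_erase hx))) (mem_range.1 (hS (mem_of_mem_erase hx'))) hxx hK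
        hP)
  calc ∑ x ∈ S.erase y, ((Pp S z B σ x y).card : ℝ) ≤
      ∑ x ∈ S.erase y, D * ((Nc S z B σ x y (e x)).card : ℝ) :=
        sum_le_sum fun x hx => he x hx
    _ = D * ∑ x ∈ S.erase y, ((Nc S z B σ x y (e x)).card : ℝ) := by rw [mul_sum]
    _ ≤ _ := mul_le_mul_of_nonneg_left (Real.le_sqrt_of_sq_le h2) hD0

theorem st_ENT (hPEL : ST_PEL) : ST_ENT := by
  intro ε hε
  obtain ⟨C0, hC0, hdiv⟩ :=
    Pool.Agent.Helper15.Hall.card_divisors_le_uniform (ε / 4 / 7) (by positivity)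
  obtain ⟨C1, hC1, hpel⟩ := hPEL (ε / 2) (by positivity)
  obtain ⟨c0, hc0⟩ : ∃ c0, c0 = C0 * (256 : ℝ) ^ (ε / 4 / 7) := ⟨_, rfl⟩
  have hc00 : 0 < c0 := by rw [hc0]; positivity
  refine ⟨2 + 8 * (c0 ^ 2 * (1 + C1)), by positivity, ?_⟩
  intro N z B S hN hz hB hBb hS
  have hNr : (1 : ℝ) ≤ N := by exact_mod_cast hN
  have hN0 : (0 : ℝ) < N := by linarith
  have hBn : B.natAbs ≤ 256 * N ^ 4 := by
    have h1 : ((B.natAbs : ℕ) : ℝ) ≤ 256 * (N : ℝ) ^ 4 := by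
      rw [Nat.cast_natAbs]
      push_cast
      exact hBb
    exact_mod_cast h1
  have hD : ∀ r ∈ S ×ˢ S, ((Mr z B r).natAbs.divisors.card : ℝ) ≤
      c0 * (N : ℝ) ^ (ε / 4) := by
    intro r hr
    rw [mem_product] at hr
    have hr1 : r.1 < N := mem_range.mp (hS hr.1)
    have hr2 : r.2 < N := mem_range.mp (hS hr.2)
    rcases eq_or_ne (Mr z B r).natAbs 0 with h0 | h0
    · rw [h0]
      simp only [Nat.divisors_zero, card_empty, Nat.cast_zero]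
      positivity
    · have hle : (Mr z B r).natAbs ≤ 256 * N ^ 7 := by
        unfold Mr
        rw [Int.natAbs_mul, Int.natAbs_mul, Int.natAbs_mul]
        calc B.natAbs * ((r.2 : ℤ) - r.1).natAbs * ((z : ℤ) - r.1).natAbs * ((z : ℤ) - r.2).natAbs
            ≤ (256 * N ^ 4) * N * N * N := by
              gcongr
              · omega
              · omega
              · omega
          _ = 256 * N ^ 7 := by ring
      have h1 := hdiv _ _ h0 hle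
      refine h1.trans (le_of_eq ?_)
      push_cast
      rw [Real.mul_rpow (by norm_num) (by positivity), ← Real.rpow_natCast, ← Real.rpow_mul hN0.le]
      have : ((7 : ℕ) : ℝ) * (ε / 4 / 7) = ε / 4 := by push_cast; ring
      rw [this, hc0]
      ring
  obtain ⟨K, hK⟩ : ∃ K, K = C1 * (N : ℝ) ^ (ε / 2) := ⟨_, rfl⟩
  have hK0 : 0 ≤ K := by rw [hK]; positivity
  obtain ⟨D, hDd⟩ : ∃ D, D = c0 * (N : ℝ) ^ (ε / 4) := ⟨_, rfl⟩
  have hD0 : 0 ≤ D := by rw [hDd]; positivity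
  rw [← hDd] at hD
  have hP : ∀ (a b : ℕ) (c : ℤ), 1 ≤ a → a ≤ N → Squarefree a → 1 ≤ b → b ≤ N → Squarefree b →
      c ≠ 0 → |c| ≤ N → (((Icc 1 N ×ˢ Icc 1 N).filter (fun t : ℕ × ℕ =>
        (a : ℤ) * (t.1 : ℤ) ^ 2 - b * (t.2 : ℤ) ^ 2 = c)).card : ℝ) ≤ K := by
    intro a b c h1 h2 h3 h4 h5 h6 h7 h8
    rw [hK]
    exact hpel N a b c hN h1 h2 h3 h4 h5 h6 h7 h8
  obtain ⟨U, hU⟩ : ∃ U, U = D * Real.sqrt ((S.card : ℝ) ^ 3 * (1 + K)) := ⟨_, rfl⟩
  have hU0 : 0 ≤ U := by rw [hU]; positivity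
  have hp := fun y hy => one_y N S z B 1 y K D (Or.inl rfl) hS hB hK0 hD0 hy hD hP
  have hm := fun y hy => one_y N S z B (-1) y K D (Or.inr rfl) hS hB hK0 hD0 hy hD hP
  rw [← hU] at hp hm
  -- the cover
  have hsub : E3 S z B ⊆ (E3 S z B).filter (fun t => t.2.1 = t.2.2) ∪
      S.biUnion (fun y => (S.erase y).biUnion (fun x =>
        (Pp S z B 1 x y ∪ Pp S z B (-1) x y).image (fun n => (n, x, y)))) := by
    rintro ⟨n, x, y⟩ ht
    have ht' := ht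
    unfold E3 at ht'
    rw [mem_filter, mem_product, mem_product] at ht'
    simp only at ht'
    obtain ⟨⟨hn, hx, hy⟩, hnx, -⟩ := ht'
    rw [mem_union]
    by_cases hxy : x = y
    · left
      rw [mem_filter]
      exact ⟨ht, hxy⟩
    · right
      rw [mem_biUnion]
      refine ⟨y, hy, ?_⟩
      rw [mem_biUnion]
      refine ⟨x, mem_erase.2 ⟨hxy, hx⟩, ?_⟩
      rw [mem_image]
      refine ⟨n, ?_, rfl⟩
      rw [mem_union]
      rcases lt_or_gt_of_ne hnx with h | h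
      · right
        unfold Pp
        rw [mem_filter]
        exact ⟨hn, ht, by omega⟩
      · left
        unfold Pp
        rw [mem_filter]
        exact ⟨hn, ht, by omega⟩
  have h1 : (E3 S z B).card ≤ S.card ^ 2 + ∑ y ∈ S, ∑ x ∈ S.erase y,
      ((Pp S z B 1 x y).card + (Pp S z B (-1) x y).card) := by
    refine (card_le_card hsub).trans ((card_union_le _ _).trans ?_)
    refine add_le_add (cardA1 S z B) ?_
    refine card_biUnion_le.trans (sum_le_sum fun y _ => ?_)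
    refine card_biUnion_le.trans (sum_le_sum fun x _ => ?_)
    exact card_image_le.trans (card_union_le _ _)
  have h2 : ((E3 S z B).card : ℝ) ≤ (S.card : ℝ) ^ 2 + (S.card : ℝ) * (2 * U) := by
    have h3 : ((E3 S z B).card : ℝ) ≤ (S.card : ℝ) ^ 2 + ∑ y ∈ S, ∑ x ∈ S.erase y,
        (((Pp S z B 1 x y).card : ℝ) + ((Pp S z B (-1) x y).card : ℝ)) := by
      exact_mod_cast h1
    refine h3.trans (add_le_add le_rfl ?_)
    have h4 : ∀ y ∈ S, ∑ x ∈ S.erase y,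
        (((Pp S z B 1 x y).card : ℝ) + ((Pp S z B (-1) x y).card : ℝ)) ≤ 2 * U := by
      intro y hy
      rw [sum_add_distrib]
      have h5 := hp y hy
      have h6 := hm y hy
      linarith
    refine (sum_le_sum h4).trans ?_
    rw [sum_const, nsmul_eq_mul]
  have hU2 : U ^ 2 = D ^ 2 * ((S.card : ℝ) ^ 3 * (1 + K)) := by
    rw [hU, mul_pow, Real.sq_sqrt (by positivity)]
  have h3 : ((E3 S z B).card : ℝ) ^ 2 ≤ 2 * (S.card : ℝ) ^ 4 +
      8 * (S.card : ℝ) ^ 5 * (D ^ 2 * (1 + K)) := by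
    have h4 : ((E3 S z B).card : ℝ) ^ 2 ≤
        ((S.card : ℝ) ^ 2 + (S.card : ℝ) * (2 * U)) ^ 2 :=
      pow_le_pow_left₀ (by positivity) h2 2
    have h5 : ((S.card : ℝ) ^ 2 + (S.card : ℝ) * (2 * U)) ^ 2 ≤
        2 * ((S.card : ℝ) ^ 2) ^ 2 + 2 * ((S.card : ℝ) * (2 * U)) ^ 2 := by
      have := sq_nonneg ((S.card : ℝ) ^ 2 - (S.card : ℝ) * (2 * U))
      linarith
    refine h4.trans (h5.trans (le_of_eq ?_))
    have h6 : ((S.card : ℝ) * (2 * U)) ^ 2 = 4 * (S.card : ℝ) ^ 2 * U ^ 2 := by ring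
    rw [h6, hU2]
    ring
  have h45 : (S.card : ℝ) ^ 4 ≤ (S.card : ℝ) ^ 5 * (N : ℝ) ^ ε := by
    have h6 : (1 : ℝ) ≤ (N : ℝ) ^ ε := Real.one_le_rpow hNr hε.le
    rcases Nat.eq_zero_or_pos S.card with h0 | h0
    · rw [h0]; simp
    · have h7 : (1 : ℝ) ≤ (S.card : ℝ) := by exact_mod_cast h0
      calc (S.card : ℝ) ^ 4 = (S.card : ℝ) ^ 4 * (1 * 1) := by ring
        _ ≤ (S.card : ℝ) ^ 4 * ((S.card : ℝ) * (N : ℝ) ^ ε) := by
            apply mul_le_mul_of_nonneg_left _ (by positivity)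
            exact mul_le_mul h7 h6 (by norm_num) (by positivity)
        _ = _ := by ring
  have hDK : D ^ 2 * (1 + K) ≤ c0 ^ 2 * (1 + C1) * (N : ℝ) ^ ε := by
    have h6 : (1 : ℝ) ≤ (N : ℝ) ^ (ε / 2) := Real.one_le_rpow hNr (by positivity)
    have h7 : 1 + K ≤ (1 + C1) * (N : ℝ) ^ (ε / 2) := by
      rw [hK]
      linarith
    have h8 : D ^ 2 = c0 ^ 2 * (N : ℝ) ^ (ε / 2) := by
      rw [hDd, mul_pow, ← Real.rpow_natCast, ← Real.rpow_natCast, ← Real.rpow_mul hN0.le]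
      congr 2
      push_cast
      ring
    have h9 : (N : ℝ) ^ ε = (N : ℝ) ^ (ε / 2) * (N : ℝ) ^ (ε / 2) := by
      rw [← Real.rpow_add hN0]
      congr 1
      ring
    rw [h8, h9]
    calc c0 ^ 2 * (N : ℝ) ^ (ε / 2) * (1 + K) ≤
        c0 ^ 2 * (N : ℝ) ^ (ε / 2) * ((1 + C1) * (N : ℝ) ^ (ε / 2)) :=
          mul_le_mul_of_nonneg_left h7 (by positivity)
      _ = _ := by ring
  calc ((E3 S z B).card : ℝ) ^ 2 ≤ 2 * (S.card : ℝ) ^ 4 +
      8 * (S.card : ℝ) ^ 5 * (D ^ 2 * (1 + K)) := h3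
    _ ≤ 2 * ((S.card : ℝ) ^ 5 * (N : ℝ) ^ ε) +
      8 * (S.card : ℝ) ^ 5 * (c0 ^ 2 * (1 + C1) * (N : ℝ) ^ ε) := by
        apply add_le_add
        · exact mul_le_mul_of_nonneg_left h45 (by norm_num)
        · exact mul_le_mul_of_nonneg_left hDK (by positivity)
    _ = _ := by ring

end Pool.Agent.Helper12.RD
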