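import Pool.Agent.Helper18.RD.Stmts3

set_option autoImplicit false

namespace Pool.Agent.Helper18.RD

open Finset

/-- integers up to `y` not divisible by the primes of `T` -/
def AT12 (T : Finset ℕ) (y : ℕ) : Finset ℕ := (Icc 1 y).filter (fun m => ∀ p ∈ T, ¬ p ∣ m)

theorem AT12_step (T : Finset ℕ) (y p : ℕ) (hp : p.Prime) :
    (1 - (p : ℝ)⁻¹) * ∑ m ∈ AT12 T y, 1 / (m : ℝ) ≤ ∑ m ∈ AT12 (insert p T) y, 1 / (m : ℝ) := by
  classical
  have hp0 : (0 : ℝ) < p := by exact_mod_cast hp.pos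
  have hsub : AT12 T y ⊆ AT12 (insert p T) y ∪ (AT12 T y).image (fun m => p * m) := by
    intro m hm
    unfold AT12 at hm
    rw [mem_filter, mem_Icc] at hm
    obtain ⟨⟨h1, h2⟩, h3⟩ := hm
    rw [mem_union]
    by_cases h : p ∣ m
    · right
      obtain ⟨k, rfl⟩ := h
      rw [mem_image]
      refine ⟨k, ?_, rfl⟩
      unfold AT12
      rw [mem_filter, mem_Icc]
      have hk : 1 ≤ k := Nat.one_le_iff_ne_zero.2 (by rintro rfl; simp at h1)
      refine ⟨⟨hk, le_trans (Nat.le_mul_of_pos_left k hp.pos) h2⟩, ?_⟩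
      intro l hl hd
      exact h3 l hl (hd.mul_left p)
    · left
      unfold AT12
      rw [mem_filter, mem_Icc]
      refine ⟨⟨h1, h2⟩, ?_⟩
      intro l hl
      rcases mem_insert.1 hl with rfl | hl
      · exact h
      · exact h3 l hl
  have h1 : ∑ m ∈ AT12 T y, 1 / (m : ℝ) ≤ ∑ m ∈ AT12 (insert p T) y, 1 / (m : ℝ) +
      ∑ m ∈ (AT12 T y).image (fun m => p * m), 1 / (m : ℝ) := by
    refine (sum_le_sum_of_subset_of_nonneg hsub (fun _ _ _ => by positivity)).trans ?_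
    rw [← sum_union_inter]
    exact le_add_of_nonneg_right (sum_nonneg (fun _ _ => by positivity))
  have h2 : ∑ m ∈ (AT12 T y).image (fun m => p * m), 1 / (m : ℝ) =
      (p : ℝ)⁻¹ * ∑ m ∈ AT12 T y, 1 / (m : ℝ) := by
    rw [sum_image (fun a _ b _ h => Nat.eq_of_mul_eq_mul_left hp.pos h), mul_sum]
    refine sum_congr rfl fun m _ => ?_
    push_cast
    rw [one_div, mul_inv, one_div]
  rw [h2] at h1
  linarith

theorem AT12_prod (y : ℕ) (T : Finset ℕ) : (∀ l ∈ T, l.Prime) →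
    (∏ p ∈ T, (1 - (p : ℝ)⁻¹)) * ∑ m ∈ Icc 1 y, 1 / (m : ℝ) ≤ ∑ m ∈ AT12 T y, 1 / (m : ℝ) := by
  classical
  induction T using Finset.induction_on with
  | empty =>
    intro _
    rw [prod_empty, one_mul]
    apply le_of_eq
    congr 1
    unfold AT12
    ext m
    simp
  | insert p T hp ih =>
    intro hT
    have hpp : p.Prime := hT p (mem_insert_self _ _)
    have hT' : ∀ l ∈ T, l.Prime := fun l hl => hT l (mem_insert_of_mem hl)
    have h1 : (0 : ℝ) ≤ 1 - (p : ℝ)⁻¹ := by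
      have : (p : ℝ)⁻¹ ≤ 1 := inv_le_one_of_one_le₀ (by exact_mod_cast hpp.one_lt.le)
      linarith
    rw [prod_insert hp, mul_assoc]
    exact (mul_le_mul_of_nonneg_left (ih hT') h1).trans (AT12_step T y p hpp)

theorem st_LLA : ST_LLA := by
  intro q y hq
  have hq0 : (0 : ℝ) < q := by exact_mod_cast hq
  have hφ : (0 : ℝ) < (Nat.totient q : ℝ) := by exact_mod_cast Nat.totient_pos.2 hq
  have h1 := AT12_prod y (2 * q).primeFactors (fun l hl => Nat.prime_of_mem_primeFactors hl)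
  have h2 : AT12 (2 * q).primeFactors y =
      (Icc 1 y).filter (fun m => Nat.Coprime m (2 * q)) := by
    unfold AT12
    apply filter_congr
    intro m hm
    rw [mem_Icc] at hm
    constructor
    · intro h
      rw [Nat.coprime_comm]
      apply Nat.Coprime.symm
      apply Nat.coprime_of_dvd
      intro k hk hkm hkq
      exact h k (Nat.mem_primeFactors.2 ⟨hk, hkq, by omega⟩) hkm
    · intro h p hp hd
      have hpp := Nat.prime_of_mem_primeFactors hp
      have := Nat.dvd_gcd hd (Nat.dvd_of_mem_primeFactors hp)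
      rw [Nat.Coprime.gcd_eq_one h] at this
      exact hpp.one_lt.ne' (Nat.dvd_one.1 this)
  rw [h2] at h1
  have h3 : (Nat.totient q : ℝ) / (2 * q) ≤ ∏ p ∈ (2 * q).primeFactors, (1 - (p : ℝ)⁻¹) := by
    have h4 := Nat.totient_eq_mul_prod_factors (2 * q)
    have h5 : ((Nat.totient (2 * q) : ℕ) : ℝ) =
        ((2 * q : ℕ) : ℝ) * ∏ p ∈ (2 * q).primeFactors, (1 - (p : ℝ)⁻¹) := by
      have h := congrArg (fun x : ℚ => (x : ℝ)) h4
      push_cast at h ⊢
      exact h
    have h6 : Nat.totient q ≤ Nat.totient (2 * q) :=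
      Nat.le_of_dvd (Nat.totient_pos.2 (by omega)) (Nat.totient_dvd_of_dvd (Dvd.intro_left 2 rfl))
    have h7 : (Nat.totient q : ℝ) ≤ 2 * q * ∏ p ∈ (2 * q).primeFactors, (1 - (p : ℝ)⁻¹) := by
      have h8 : (Nat.totient q : ℝ) ≤ (Nat.totient (2 * q) : ℝ) := by exact_mod_cast h6
      rw [h5] at h8
      push_cast at h8
      exact h8
    rw [div_le_iff₀ (by positivity)]
    linarith
  have hs : 0 ≤ ∑ m ∈ Icc 1 y, 1 / (m : ℝ) := sum_nonneg fun _ _ => by positivity
  have h8 := (mul_le_mul_of_nonneg_right h3 hs).trans h1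
  rw [div_mul_eq_mul_div, div_le_iff₀ (by positivity)] at h8
  have h9 : 2 * ((q : ℝ) / (Nat.totient q : ℝ)) *
      ∑ m ∈ (Icc 1 y).filter (fun m => Nat.Coprime m (2 * q)), 1 / (m : ℝ) =
      ((∑ m ∈ (Icc 1 y).filter (fun m => Nat.Coprime m (2 * q)), 1 / (m : ℝ)) * (2 * q)) /
        (Nat.totient q : ℝ) := by
    ring
  rw [h9, le_div_iff₀ hφ]
  linarith

end Pool.Agent.Helper18.RD
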